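import Pool.Agent.Helper86.UQ.St5

/-! Project UQ, module INV: invariance of the infinite-volume numbers under automorphisms. -/

set_option autoImplicit false

open Finset

namespace Pool.Agent.Helper75.UQ

open Classical Pool.Agent.Helper30.RCU Pool.Agent.Helper1.UQ Pool.Agent.Helper86.UQ

universe u

section

variable {V : Type u} {G : SimpleGraph V}

/-- the renaming of the vertices -/
noncomputable def tg (g : G ≃g G) : Option V ↪ Option V := (Equiv.optionCongr g.toEquiv).toEmbedding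

/-- the renaming of the edges -/
noncomputable def jg (g : G ≃g G) : GE G ↪ GE G :=
  (Equiv.sumCongr g.mapEdgeSet g.toEquiv).toEmbedding

lemma ph_jg (g : G ≃g G) (e : GE G) : ph G (jg g e) = (ph G e).map (tg g) := by
  rcases e with e | v
  · have h1 : ph G (jg g (Sum.inl e)) = (((g.mapEdgeSet e : G.edgeSet) : Sym2 V)).map some := rfl
    have h2 : ((g.mapEdgeSet e : G.edgeSet) : Sym2 V) = (e : Sym2 V).map g := rfl
    have h3 : ph G (Sum.inl e) = (e : Sym2 V).map some := rfl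
    rw [h1, h2, h3, Sym2.map_map, Sym2.map_map]
    rfl
  · rfl

lemma sg_tg (g : G ≃g G) (I : Finset V) (x : Option V) :
    sg (I.map g.toEquiv.toEmbedding) (tg g x) = tg g (sg I x) := by
  rcases x with _ | v
  · rfl
  · have h1 : sg (I.map g.toEquiv.toEmbedding) (tg g (some v))
        = if g v ∈ I.map g.toEquiv.toEmbedding then some (g v) else none := rfl
    have h2 : sg I (some v) = if v ∈ I then some v else none := rfl
    have h3 : g v ∈ I.map g.toEquiv.toEmbedding ↔ v ∈ I := by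
      have : g v = g.toEquiv.toEmbedding v := rfl
      rw [this]
      exact Finset.mem_map' _
    rw [h1, h2]
    by_cases hv : v ∈ I
    · rw [if_pos (h3.mpr hv), if_pos hv]
      rfl
    · rw [if_neg (fun h => hv (h3.mp h)), if_neg hv]
      rfl

lemma pI_jg (g : G ≃g G) (I : Finset V) (e : GE G) :
    pI G (I.map g.toEquiv.toEmbedding) (jg g e) = (pI G I e).map (tg g) := by
  show (ph G (jg g e)).map (sg (I.map g.toEquiv.toEmbedding)) = ((ph G e).map (sg I)).map (tg g)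
  rw [ph_jg, Sym2.map_map, Sym2.map_map]
  congr 1
  funext x
  exact sg_tg g I x

lemma pr_jg (g : G ≃g G) (p t : ℝ) (e : GE G) : pr G p t (jg g e) = pr G p t e := by
  rcases e with e | v
  · rfl
  · rfl

lemma disj_jg (g : G ≃g G) (A : Finset G.edgeSet) (U : Finset V) :
    (A.map g.mapEdgeSet.toEmbedding).disjSum (U.map g.toEquiv.toEmbedding)
      = (A.disjSum U).map (jg g) := by
  ext x
  rw [Finset.mem_map]
  constructor
  · intro hx
    rcases Finset.mem_disjSum.mp hx with ⟨a, ha, rfl⟩ | ⟨v, hv, rfl⟩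
    · obtain ⟨b, hb, rfl⟩ := Finset.mem_map.mp ha
      exact ⟨Sum.inl b, Finset.inl_mem_disjSum.mpr hb, rfl⟩
    · obtain ⟨b, hb, rfl⟩ := Finset.mem_map.mp hv
      exact ⟨Sum.inr b, Finset.inr_mem_disjSum.mpr hb, rfl⟩
  · rintro ⟨y, hy, rfl⟩
    rcases Finset.mem_disjSum.mp hy with ⟨a, ha, rfl⟩ | ⟨v, hv, rfl⟩
    · exact Finset.mem_disjSum.mpr (Or.inl ⟨g.mapEdgeSet a, Finset.mem_map.mpr ⟨a, ha, rfl⟩, rfl⟩)
    · exact Finset.mem_disjSum.mpr (Or.inr ⟨g v, Finset.mem_map.mpr ⟨v, hv, rfl⟩, rfl⟩)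

lemma oe_jg (g : G ≃g G) (e : G.edgeSet) (ω : Finset (GE G)) :
    oe (Sum.inl (g.mapEdgeSet e) : GE G) (ω.map (jg g)) = oe (Sum.inl e : GE G) ω := by
  unfold oe
  have h : (Sum.inl (g.mapEdgeSet e) : GE G) ∈ ω.map (jg g) ↔ (Sum.inl e : GE G) ∈ ω := by
    have : (Sum.inl (g.mapEdgeSet e) : GE G) = jg g (Sum.inl e) := rfl
    rw [this]
    exact Finset.mem_map' _
  by_cases hx : (Sum.inl e : GE G) ∈ ω
  · rw [if_pos (h.mpr hx), if_pos hx]
  · rw [if_neg (fun h' => hx (h.mp h')), if_neg hx]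

lemma te_jg (hMTE : StMTE.{u}) (hlf : ∀ v, (G.neighborSet v).Finite) (g : G ≃g G) (I : Finset V) :
    te G (I.map g.toEquiv.toEmbedding) = (te G I).map g.mapEdgeSet.toEmbedding := by
  ext e
  rw [(hMTE V G hlf (I.map g.toEquiv.toEmbedding) e).1, Finset.mem_map]
  constructor
  · rintro ⟨v, hv, hvI⟩
    obtain ⟨w, hw, rfl⟩ := Finset.mem_map.mp hvI
    refine ⟨g.mapEdgeSet.symm e, ?_, ?_⟩
    · rw [(hMTE V G hlf I (g.mapEdgeSet.symm e)).1]
      refine ⟨w, ?_, hw⟩
      have h1 : (e : Sym2 V) = Sym2.map g ((g.mapEdgeSet.symm e : G.edgeSet) : Sym2 V) := by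
        have h2 : e = g.mapEdgeSet (g.mapEdgeSet.symm e) := (Equiv.apply_symm_apply _ _).symm
        have h3 := congrArg (fun e : G.edgeSet => (e : Sym2 V)) h2
        exact h3
      have hv' : g w ∈ (e : Sym2 V) := hv
      rw [h1] at hv'
      obtain ⟨w', hw', hww⟩ := Sym2.mem_map.mp hv'
      have : w' = w := g.injective hww
      rw [← this]
      exact hw'
    · exact Equiv.apply_symm_apply _ _
  · rintro ⟨e', he', rfl⟩
    obtain ⟨v, hv, hvI⟩ := ((hMTE V G hlf I e').1).mp he'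
    refine ⟨g v, ?_, Finset.mem_map.mpr ⟨v, hvI, rfl⟩⟩
    show g v ∈ Sym2.map g (e' : Sym2 V)
    exact Sym2.mem_map.mpr ⟨v, hv, rfl⟩

lemma map_ins (g : G ≃g G) (e : G.edgeSet) (A : Finset G.edgeSet) :
    insert (g.mapEdgeSet e) (A.map g.mapEdgeSet.toEmbedding)
      = (insert e A).map g.mapEdgeSet.toEmbedding := by
  rw [Finset.map_insert]
  rfl

lemma eD_jg (hREL : StREL.{u}) (g : G ≃g G) (p t q : ℝ) (I : Finset V) (A : Finset G.edgeSet)
    (U : Finset V) (e : G.edgeSet) :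
    eD G p t q (I.map g.toEquiv.toEmbedding) (A.map g.mapEdgeSet.toEmbedding)
      (U.map g.toEquiv.toEmbedding) (oe (Sum.inl (g.mapEdgeSet e)))
      = eD G p t q I A U (oe (Sum.inl e)) := by
  unfold eD
  rw [disj_jg]
  have h := (hREL (Option V) (Option V) (GE G) (GE G) (jg g) (tg g) (pI G I)
    (pI G (I.map g.toEquiv.toEmbedding)) (pr G p t) (pr G p t) q (pI_jg g I) (pr_jg g p t)
    (A.disjSum U) (oe (Sum.inl (g.mapEdgeSet e)))).1
  rw [h]
  congr 1
  funext ω
  exact oe_jg g e ω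

lemma fI_jg (hREL : StREL.{u}) (g : G ≃g G) (p q : ℝ) (A : Finset G.edgeSet) (e : G.edgeSet) :
    ex (ph G) (pr G p 0) q ((A.map g.mapEdgeSet.toEmbedding).disjSum ∅)
      (oe (Sum.inl (g.mapEdgeSet e)))
      = ex (ph G) (pr G p 0) q (A.disjSum ∅) (oe (Sum.inl e)) := by
  have h0 := disj_jg g A ∅
  rw [Finset.map_empty] at h0
  rw [h0]
  have h := (hREL (Option V) (Option V) (GE G) (GE G) (jg g) (tg g) (ph G)
    (ph G) (pr G p 0) (pr G p 0) q (ph_jg g) (pr_jg g p 0)
    (A.disjSum ∅) (oe (Sum.inl (g.mapEdgeSet e)))).1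
  rw [h]
  congr 1
  funext ω
  exact oe_jg g e ω

end

theorem hINV (hMTE : StMTE.{u}) (hREL : StREL.{u}) : StINV.{u} := by
  intro V G hlf p t q _ _ _ _ _ g e
  have hf : ∀ I : Finset V, fI G p q (I.map g.toEquiv.toEmbedding) (g.mapEdgeSet e)
      = fI G p q I e := by
    intro I
    unfold fI
    rw [te_jg hMTE hlf]
    exact fI_jg hREL g p q (te G I) e
  have hw : ∀ I : Finset V, wI G p q (I.map g.toEquiv.toEmbedding) (g.mapEdgeSet e)
      = wI G p q I e := by
    intro I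
    unfold wI
    rw [te_jg hMTE hlf, map_ins]
    have h := eD_jg hREL g p 0 q I (insert e (te G I)) ∅ e
    rw [Finset.map_empty] at h
    exact h
  have hh : ∀ I : Finset V, hI G p t q (I.map g.toEquiv.toEmbedding) (g.mapEdgeSet e)
      = hI G p t q I e := by
    intro I
    unfold hI
    rw [te_jg hMTE hlf, map_ins]
    exact eD_jg hREL g p t q I (insert e (te G I)) I e
  refine ⟨?_, ?_, ?_⟩
  · unfold f8
    exact (Equiv.iSup_congr (Equiv.finsetCongr g.toEquiv) hf).symm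
  · unfold w8
    exact (Equiv.iInf_congr (Equiv.finsetCongr g.toEquiv) hw).symm
  · unfold h8
    exact (Equiv.iInf_congr (Equiv.finsetCongr g.toEquiv) hh).symm

end Pool.Agent.Helper75.UQ
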